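import Pool.Agent.N939.ME.Stm

/-!
# Project ME (helper939), ME12 (helper680): mean ergodic theorem in `L¹`
-/

set_option autoImplicit false
open MeasureTheory ProbabilityTheory Filter Topology Finset

namespace Pool.Agent.N680.ME

open Pool.Agent.N939.ME

noncomputable section

variable {S : Type} [MeasurableSpace S] {Q : Kernel S S} [IsMarkovKernel Q] {ν : Measure S}
  [IsProbabilityMeasure ν]

omit [IsProbabilityMeasure ν] in
lemma nsq (f : S → ℝ) (hf : MemLp f 2 ν) : ‖hf.toLp f‖ ^ 2 = ∫ x, f x ^ 2 ∂ν := by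
  rw [← real_inner_self_eq_norm_sq, L2.inner_def]
  refine integral_congr_ae ?_
  filter_upwards [hf.coeFn_toLp] with x hx
  rw [hx]
  simp [sq]

omit [IsProbabilityMeasure ν] in
lemma nsq' (u : Lp ℝ 2 ν) : ‖u‖ ^ 2 = ∫ x, (u x) ^ 2 ∂ν := by
  rw [← real_inner_self_eq_norm_sq, L2.inner_def]
  refine integral_congr_ae ?_
  filter_upwards with x
  simp [sq]

/-- the operator on `L²` as a linear map -/
def TLl (hTT : S_TT) (hν : ν.bind Q = ν) : Lp ℝ 2 ν →ₗ[ℝ] Lp ℝ 2 ν where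
  toFun u := (((hTT S Q ν hν).2.2.1 u (Lp.memLp u)).1).toLp (TT Q u)
  map_add' u v := by
    have h := hTT S Q ν hν
    apply Lp.ext
    refine (MemLp.coeFn_toLp _).trans ?_
    refine EventuallyEq.trans ?_ (Lp.coeFn_add _ _).symm
    have h1 : TT Q (u + v : Lp ℝ 2 ν) =ᵐ[ν] TT Q (fun y => u y + v y) :=
      h.2.2.2.1 _ _ (Lp.coeFn_add u v)
    have h2 := h.2.2.2.2.2 u v ((Lp.memLp u).integrable (by norm_num))
      ((Lp.memLp v).integrable (by norm_num))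
    filter_upwards [h1, h2, MemLp.coeFn_toLp (h.2.2.1 u (Lp.memLp u)).1,
      MemLp.coeFn_toLp (h.2.2.1 v (Lp.memLp v)).1] with x a1 a2 a3 a4
    rw [a1, a2, Pi.add_apply, a3, a4]
  map_smul' c u := by
    have h := hTT S Q ν hν
    apply Lp.ext
    refine (MemLp.coeFn_toLp _).trans ?_
    refine EventuallyEq.trans ?_ (Lp.coeFn_smul _ _).symm
    have h1 : TT Q (c • u : Lp ℝ 2 ν) =ᵐ[ν] TT Q (fun y => c * u y) :=
      h.2.2.2.1 _ _ (Lp.coeFn_smul c u)
    filter_upwards [h1, MemLp.coeFn_toLp (h.2.2.1 u (Lp.memLp u)).1] with x a1 a3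
    rw [a1, Pi.smul_apply, RingHom.id_apply, a3, smul_eq_mul]
    exact integral_const_mul _ _

lemma TLl_coe (hTT : S_TT) (hν : ν.bind Q = ν) (u : Lp ℝ 2 ν) : TLl hTT hν u =ᵐ[ν] TT Q u :=
  MemLp.coeFn_toLp (((hTT S Q ν hν).2.2.1 u (Lp.memLp u)).1)

lemma TLl_norm (hTT : S_TT) (hν : ν.bind Q = ν) (u : Lp ℝ 2 ν) : ‖TLl hTT hν u‖ ≤ 1 * ‖u‖ := by
  rw [one_mul]
  have h := ((hTT S Q ν hν).2.2.1 u (Lp.memLp u)).2.1
  have h1 : ‖TLl hTT hν u‖ ^ 2 = ∫ x, TT Q u x ^ 2 ∂ν :=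
    nsq _ (((hTT S Q ν hν).2.2.1 u (Lp.memLp u)).1)
  have h2 := nsq' u
  have h3 : ‖TLl hTT hν u‖ ^ 2 ≤ ‖u‖ ^ 2 := by rw [h1, h2]; exact h
  exact le_of_sq_le_sq h3 (norm_nonneg _)
where
  le_of_sq_le_sq {a b : ℝ} (h : a ^ 2 ≤ b ^ 2) (hb : 0 ≤ b) : a ≤ b := by
    nlinarith [sq_nonneg (a - b)]

/-- the operator on `L²` -/
def TL (hTT : S_TT) (hν : ν.bind Q = ν) : Lp ℝ 2 ν →L[ℝ] Lp ℝ 2 ν :=
  (TLl hTT hν).mkContinuous 1 (TLl_norm hTT hν)

lemma TL_coe (hTT : S_TT) (hν : ν.bind Q = ν) (u : Lp ℝ 2 ν) : TL hTT hν u =ᵐ[ν] TT Q u :=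
  TLl_coe hTT hν u

lemma TL_norm (hTT : S_TT) (hν : ν.bind Q = ν) : ‖TL (Q := Q) (ν := ν) hTT hν‖ ≤ 1 :=
  LinearMap.mkContinuous_norm_le _ zero_le_one _

/-- fixed functions are constant -/
lemma fixed_const (hTT : S_TT) (hν : ν.bind Q = ν) (hE : Erg Q ν) (g : S → ℝ)
    (hgm : Measurable g) (hg : MemLp g 2 ν) (hfix : TT Q g =ᵐ[ν] g) :
    ∃ c : ℝ, g =ᵐ[ν] fun _ => c := by
  have h := hTT S Q ν hν
  have hg2 : Integrable (fun y => g y ^ 2) ν := hg.integrable_sq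
  obtain ⟨i1, i2, -, -⟩ := h.2.1 _ hg2
  obtain ⟨j1, -, j3, j4⟩ := h.2.2.1 g hg
  have hD : (fun x => TT Q (fun y => g y ^ 2) x - TT Q g x ^ 2) =ᵐ[ν] 0 := by
    refine (integral_eq_zero_iff_of_nonneg_ae ?_ (i1.sub j1.integrable_sq)).1 ?_
    · filter_upwards [j4] with x hx
      simpa using hx
    · show ∫ x, (TT Q (fun y => g y ^ 2) x - TT Q g x ^ 2) ∂ν = 0
      rw [integral_sub i1 j1.integrable_sq, i2, sub_eq_zero]
      refine integral_congr_ae ?_
      filter_upwards [hfix] with x hx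
      rw [hx]
  have hloc : ∀ᵐ x ∂ν, ∀ᵐ y ∂(Q x), g y = g x := by
    filter_upwards [hD, hfix, j3] with x h1 h2 h3
    have hv : Var[g; Q x] = 0 := by
      rw [variance_eq_sub h3]
      have h4 : TT Q (fun y => g y ^ 2) x - TT Q g x ^ 2 = 0 := h1
      simpa [TT] using h4
    have he : evariance g (Q x) = 0 := by
      rw [← h3.ofReal_variance_eq, hv, ENNReal.ofReal_zero]
    have h5 := (evariance_eq_zero_iff hgm.aemeasurable).1 he
    filter_upwards [h5] with y hy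
    rw [hy]
    exact h2
  obtain ⟨c, hc⟩ := exists_eventuallyEq_const_of_forall_separating (l := ae ν) (f := g)
    MeasurableSet (by
      intro U hU
      have hA : MeasurableSet (g ⁻¹' U) := hgm hU
      have h1 : ∀ᵐ x ∂ν, Q x (g ⁻¹' U) = (g ⁻¹' U).indicator (fun _ => (1 : ENNReal)) x := by
        filter_upwards [hloc] with x hx
        by_cases hxU : x ∈ g ⁻¹' U
        · rw [Set.indicator_of_mem hxU]
          rw [← mem_ae_iff_prob_eq_one hA]
          filter_upwards [hx] with y hy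
          show g y ∈ U
          rw [hy]
          exact hxU
        · rw [Set.indicator_of_notMem hxU, measure_eq_zero_iff_ae_notMem]
          filter_upwards [hx] with y hy
          intro hyU
          apply hxU
          show g x ∈ U
          rw [← hy]
          exact hyU
      rcases hE _ hA h1 with h2 | h2
      · right
        rw [measure_eq_zero_iff_ae_notMem] at h2
        exact h2
      · left
        rw [← mem_ae_iff_prob_eq_one hA] at h2
        exact h2)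
  exact ⟨c, hc⟩

lemma iter_coe (hTT : S_TT) (hν : ν.bind Q = ν) (g : S → ℝ) (hg : MemLp g 2 ν) (t : ℕ) :
    ((TL hTT hν)^[t] (hg.toLp g) : Lp ℝ 2 ν) =ᵐ[ν] (TT Q)^[t] g := by
  induction t with
  | zero => exact hg.coeFn_toLp
  | succ t ih =>
    rw [Function.iterate_succ_apply', Function.iterate_succ_apply']
    exact (TL_coe hTT hν _).trans ((hTT S Q ν hν).2.2.2.1 _ _ ih)

lemma sum_coe (hTT : S_TT) (hν : ν.bind Q = ν) (g : S → ℝ) (hg : MemLp g 2 ν) (n : ℕ) :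
    ((∑ t ∈ range n, (TL hTT hν)^[t] (hg.toLp g) : Lp ℝ 2 ν)) =ᵐ[ν]
      fun x => ∑ t ∈ range n, (TT Q)^[t] g x := by
  induction n with
  | zero =>
    simp only [Finset.range_zero, Finset.sum_empty]
    exact Lp.coeFn_zero _ _ _
  | succ n ih =>
    simp only [Finset.sum_range_succ]
    filter_upwards [Lp.coeFn_add (∑ t ∈ range n, (TL hTT hν)^[t] (hg.toLp g))
      ((TL hTT hν)^[n] (hg.toLp g)), ih, iter_coe hTT hν g hg n] with x a1 a2 a3
    rw [a1, Pi.add_apply, a2, a3]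

lemma avg_coe (hTT : S_TT) (hν : ν.bind Q = ν) (g : S → ℝ) (hg : MemLp g 2 ν) (n : ℕ) :
    (birkhoffAverage ℝ (TL hTT hν) _root_.id n (hg.toLp g) : Lp ℝ 2 ν) =ᵐ[ν]
      fun x => (∑ t ∈ range n, (TT Q)^[t] g x) / n := by
  have h1 : birkhoffAverage ℝ (TL hTT hν) _root_.id n (hg.toLp g) =
      (n : ℝ)⁻¹ • ∑ t ∈ range n, (TL hTT hν)^[t] (hg.toLp g) := rfl
  rw [h1]
  filter_upwards [Lp.coeFn_smul ((n : ℝ)⁻¹) (∑ t ∈ range n, (TL hTT hν)^[t] (hg.toLp g)),
    sum_coe hTT hν g hg n] with x a1 a2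
  rw [a1, Pi.smul_apply, a2, smul_eq_mul]
  ring

/-- `L¹` norm bounded by `L²` norm -/
lemma l1_le (f : S → ℝ) (hf : MemLp f 2 ν) : ∫ x, |f x| ∂ν ≤ ‖hf.toLp f‖ := by
  have h1 : MemLp (fun x => |f x|) 2 ν := hf.abs
  have h2 := variance_nonneg (fun x => |f x|) ν
  rw [variance_eq_sub h1] at h2
  have h3 := nsq f hf
  have h4 : ∫ x, ((fun x => |f x|) ^ 2) x ∂ν = ∫ x, f x ^ 2 ∂ν := by
    refine integral_congr_ae (Eventually.of_forall fun x => ?_)
    simp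
  rw [h4, ← h3] at h2
  have h5 : 0 ≤ ‖hf.toLp f‖ := norm_nonneg _
  nlinarith [sq_nonneg (∫ x, |f x| ∂ν - ‖hf.toLp f‖)]

/-- the case of square integrable functions -/
lemma er2 (hTT : S_TT) (hν : ν.bind Q = ν) (hE : Erg Q ν) (g : S → ℝ) (hg : MemLp g 2 ν) :
    Tendsto (fun n : ℕ => ∫ x, |(∑ t ∈ range n, (TT Q)^[t] g x) / n - ∫ y, g y ∂ν| ∂ν)
      atTop (𝓝 0) := by
  set K := ((TL (Q := Q) (ν := ν) hTT hν).eqLocus (1 : Lp ℝ 2 ν →L[ℝ] Lp ℝ 2 ν)) with hK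
  set u : Lp ℝ 2 ν := hg.toLp g with hu
  have hlim := (TL hTT hν).tendsto_birkhoffAverage_orthogonalProjection (TL_norm hTT hν) u
  set w : Lp ℝ 2 ν := ((K.orthogonalProjectionOnto u : K) : Lp ℝ 2 ν) with hw
  have hwK : w ∈ K := (K.orthogonalProjectionOnto u).2
  have hfix : TT Q w =ᵐ[ν] w := by
    have h1 : TL hTT hν w = w := hwK
    have h2 := TL_coe hTT hν w
    rw [h1] at h2
    exact h2.symm
  obtain ⟨c, hc⟩ := fixed_const hTT hν hE w (Lp.stronglyMeasurable w).measurable (Lp.memLp w) hfix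
  -- the constant
  have h1m : MemLp (fun _ : S => (1 : ℝ)) 2 ν := memLp_const 1
  have hone : h1m.toLp (fun _ : S => (1 : ℝ)) ∈ K := by
    show TL hTT hν (h1m.toLp (fun _ : S => (1 : ℝ))) = h1m.toLp (fun _ : S => (1 : ℝ))
    apply Lp.ext
    have h2 : TT Q (h1m.toLp (fun _ : S => (1 : ℝ))) =ᵐ[ν] TT Q (fun _ => 1) :=
      (hTT S Q ν hν).2.2.2.1 _ _ h1m.coeFn_toLp
    filter_upwards [TL_coe hTT hν (h1m.toLp (fun _ : S => (1 : ℝ))), h2, h1m.coeFn_toLp]
      with x a1 a2 a3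
    rw [a1, a2, a3]
    simp [TT]
  have hinner : inner ℝ (u - w) (h1m.toLp (fun _ : S => (1 : ℝ))) = 0 :=
    Submodule.starProjection_inner_eq_zero u _ hone
  have hgc : ∫ y, g y ∂ν = c := by
    rw [L2.inner_def] at hinner
    have h3 : ∫ a, inner ℝ ((u - w : Lp ℝ 2 ν) a) ((h1m.toLp (fun _ : S => (1 : ℝ))) a) ∂ν =
        ∫ a, (g a - c) ∂ν := by
      refine integral_congr_ae ?_
      filter_upwards [Lp.coeFn_sub u w, hg.coeFn_toLp, hc, h1m.coeFn_toLp] with x a1 a2 a3 a4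
      rw [a1, a4, Pi.sub_apply, a2, a3]
      simp
    rw [h3, integral_sub (hg.integrable (by norm_num)) (integrable_const c)] at hinner
    simp at hinner
    linarith
  -- the bound
  have hT : Tendsto (fun n : ℕ => ‖birkhoffAverage ℝ (TL hTT hν) _root_.id n u - w‖) atTop (𝓝 0) :=
    tendsto_iff_norm_sub_tendsto_zero.1 hlim
  refine squeeze_zero (fun n => integral_nonneg fun x => abs_nonneg _) (fun n => ?_) hT
  set v : Lp ℝ 2 ν := birkhoffAverage ℝ (TL hTT hν) _root_.id n u - w with hv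
  have h4 := l1_le (ν := ν) v (Lp.memLp v)
  rw [Lp.toLp_coeFn] at h4
  refine le_trans (le_of_eq ?_) h4
  refine integral_congr_ae ?_
  filter_upwards [Lp.coeFn_sub (birkhoffAverage ℝ (TL hTT hν) _root_.id n u) w,
    avg_coe hTT hν g hg n, hc] with x a1 a2 a3
  rw [hv, a1, Pi.sub_apply, a2, a3, hgc]

lemma iter_int (hTT : S_TT) (hν : ν.bind Q = ν) (h : S → ℝ) (hh : Integrable h ν) (t : ℕ) :
    Integrable ((TT Q)^[t] h) ν := by
  induction t with
  | zero => exact hh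
  | succ t ih =>
    rw [Function.iterate_succ_apply']
    exact ((hTT S Q ν hν).2.1 _ ih).1

lemma T_sub (hTT : S_TT) (hν : ν.bind Q = ν) (h k : S → ℝ) (hh : Integrable h ν)
    (hk : Integrable k ν) : ∫ x, |TT Q h x - TT Q k x| ∂ν ≤ ∫ x, |h x - k x| ∂ν := by
  have H := hTT S Q ν hν
  have e : (fun x => TT Q h x - TT Q k x) =ᵐ[ν] TT Q (fun y => h y - k y) := by
    filter_upwards [(H.2.1 h hh).2.2.1, (H.2.1 k hk).2.2.1] with x a1 a2
    exact (integral_sub a1 a2).symm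
  obtain ⟨b1, -, -, b4⟩ := H.2.1 (fun y => h y - k y) (hh.sub hk)
  obtain ⟨c1, c2, -, -⟩ := H.2.1 (fun y => |h y - k y|) (hh.sub hk).abs
  rw [← c2]
  refine integral_mono_ae ?_ c1 ?_
  · exact (b1.abs).congr (by
      filter_upwards [e] with x hx
      rw [hx])
  · filter_upwards [e, b4] with x a1 a2
    rw [a1]
    exact a2

lemma iter_sub (hTT : S_TT) (hν : ν.bind Q = ν) (h k : S → ℝ) (hh : Integrable h ν)
    (hk : Integrable k ν) (t : ℕ) :
    ∫ x, |(TT Q)^[t] h x - (TT Q)^[t] k x| ∂ν ≤ ∫ x, |h x - k x| ∂ν := by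
  induction t with
  | zero => exact le_rfl
  | succ t ih =>
    simp only [Function.iterate_succ_apply']
    exact (T_sub hTT hν _ _ (iter_int hTT hν h hh t) (iter_int hTT hν k hk t)).trans ih

lemma avg_int (hTT : S_TT) (hν : ν.bind Q = ν) (h : S → ℝ) (hh : Integrable h ν) (n : ℕ) :
    Integrable (fun x => (∑ t ∈ range n, (TT Q)^[t] h x) / n) ν := by
  refine Integrable.div_const ?_ _
  exact integrable_finsetSum _ fun t _ => iter_int hTT hν h hh t

lemma avg_sub (hTT : S_TT) (hν : ν.bind Q = ν) (h k : S → ℝ) (hh : Integrable h ν)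
    (hk : Integrable k ν) (n : ℕ) :
    ∫ x, |(∑ t ∈ range n, (TT Q)^[t] h x) / n - (∑ t ∈ range n, (TT Q)^[t] k x) / n| ∂ν ≤
      ∫ x, |h x - k x| ∂ν := by
  have hi : ∀ t, Integrable (fun x => |(TT Q)^[t] h x - (TT Q)^[t] k x|) ν := fun t =>
    ((iter_int hTT hν h hh t).sub (iter_int hTT hν k hk t)).abs
  have h1 : ∫ x, |(∑ t ∈ range n, (TT Q)^[t] h x) / n - (∑ t ∈ range n, (TT Q)^[t] k x) / n| ∂ν ≤
      ∫ x, (∑ t ∈ range n, |(TT Q)^[t] h x - (TT Q)^[t] k x|) / n ∂ν := by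
    refine integral_mono ((avg_int hTT hν h hh n).sub (avg_int hTT hν k hk n)).abs
      ((integrable_finsetSum _ fun t _ => hi t).div_const _) ?_
    intro x
    simp only
    rw [← sub_div, ← sum_sub_distrib, abs_div, Nat.abs_cast]
    exact div_le_div_of_nonneg_right (abs_sum_le_sum_abs _ _) (Nat.cast_nonneg _)
  refine h1.trans ?_
  rw [integral_div, integral_finsetSum _ fun t _ => hi t]
  have h2 : ∑ t ∈ range n, ∫ x, |(TT Q)^[t] h x - (TT Q)^[t] k x| ∂ν ≤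
      n * ∫ x, |h x - k x| ∂ν := by
    refine (sum_le_sum fun t _ => iter_sub hTT hν h k hh hk t).trans (le_of_eq ?_)
    rw [sum_const, card_range, nsmul_eq_mul]
  have h0 : 0 ≤ ∫ x, |h x - k x| ∂ν := integral_nonneg fun x => abs_nonneg _
  rcases Nat.eq_zero_or_pos n with hn | hn
  · subst hn
    simpa using h0
  · have hn' : (0 : ℝ) < n := by exact_mod_cast hn
    rw [div_le_iff₀ hn', mul_comm]
    exact h2

theorem er (hTT : S_TT) : S_ER := by
  intro S _ Q _ ν _ hν hE h hh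
  rw [Metric.tendsto_atTop]
  intro ε hε
  -- approximation by a simple function
  obtain ⟨g, hg1, hg2⟩ := (memLp_one_iff_integrable.2 hh).exists_simpleFunc_eLpNorm_sub_lt
    ENNReal.one_ne_top (ε := ENNReal.ofReal (ε / 4)) (by simpa using hε)
  have hgi : Integrable g ν := memLp_one_iff_integrable.1 hg2
  have hgL : MemLp g 2 ν := SimpleFunc.memLp_of_isFiniteMeasure g 2 ν
  have hδ : ∫ x, |h x - g x| ∂ν < ε / 4 := by
    have h1 : ∫ x, |h x - g x| ∂ν = (eLpNorm (h - ⇑g) 1 ν).toReal := by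
      have h2 := integral_norm_eq_lintegral_enorm (hh.sub hgi).aestronglyMeasurable
      rw [eLpNorm_one_eq_lintegral_enorm]
      exact h2
    rw [h1]
    have h3 := (ENNReal.toReal_lt_toReal (ne_top_of_lt hg1) ENNReal.ofReal_ne_top).2 hg1
    rwa [ENNReal.toReal_ofReal (by positivity)] at h3
  obtain ⟨N, hN⟩ := (Metric.tendsto_atTop.1 (er2 hTT hν hE g hgL)) (ε / 4) (by positivity)
  refine ⟨N, fun n hn => ?_⟩
  have h1 := hN n hn
  rw [Real.dist_eq, sub_zero, abs_of_nonneg (integral_nonneg fun x => abs_nonneg _)] at h1 ⊢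
  have hgh : |∫ y, g y ∂ν - ∫ y, h y ∂ν| ≤ ∫ x, |h x - g x| ∂ν := by
    rw [abs_sub_comm, ← integral_sub hh hgi]
    exact abs_integral_le_integral_abs
  have h2 := avg_sub hTT hν h g hh hgi n
  have i1 := avg_int hTT hν h hh n
  have i2 := avg_int hTT hν g hgi n
  have h3 : ∫ x, |(∑ t ∈ range n, (TT Q)^[t] h x) / n - ∫ y, h y ∂ν| ∂ν ≤
      ∫ x, (|(∑ t ∈ range n, (TT Q)^[t] h x) / n - (∑ t ∈ range n, (TT Q)^[t] g x) / n| +
        |(∑ t ∈ range n, (TT Q)^[t] g x) / n - ∫ y, g y ∂ν| +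
        |∫ y, g y ∂ν - ∫ y, h y ∂ν|) ∂ν := by
    refine integral_mono (i1.sub (integrable_const _)).abs
      (((i1.sub i2).abs.add (i2.sub (integrable_const _)).abs).add (integrable_const _)) ?_
    intro x
    simp only
    have e : (∑ t ∈ range n, (TT Q)^[t] h x) / n - ∫ y, h y ∂ν =
        ((∑ t ∈ range n, (TT Q)^[t] h x) / n - (∑ t ∈ range n, (TT Q)^[t] g x) / n) +
        ((∑ t ∈ range n, (TT Q)^[t] g x) / n - ∫ y, g y ∂ν) +
        (∫ y, g y ∂ν - ∫ y, h y ∂ν) := by ring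
    rw [e]
    exact abs_add_three _ _ _
  have h4 : ∫ x, (|(∑ t ∈ range n, (TT Q)^[t] h x) / n - (∑ t ∈ range n, (TT Q)^[t] g x) / n| +
        |(∑ t ∈ range n, (TT Q)^[t] g x) / n - ∫ y, g y ∂ν| +
        |∫ y, g y ∂ν - ∫ y, h y ∂ν|) ∂ν =
      ∫ x, |(∑ t ∈ range n, (TT Q)^[t] h x) / n - (∑ t ∈ range n, (TT Q)^[t] g x) / n| ∂ν +
      ∫ x, |(∑ t ∈ range n, (TT Q)^[t] g x) / n - ∫ y, g y ∂ν| ∂ν +
        |∫ y, g y ∂ν - ∫ y, h y ∂ν| := by
    have f1 := (i1.sub i2).abs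
    have f2 := (i2.sub (integrable_const (∫ y, g y ∂ν))).abs
    have k1 := integral_add (f1.add f2) (integrable_const (μ := ν) |∫ y, g y ∂ν - ∫ y, h y ∂ν|)
    have k2 := integral_add f1 f2
    simp only [Pi.add_apply, Pi.sub_apply, integral_const, probReal_univ, smul_eq_mul,
      one_mul] at k1 k2
    rw [k1, k2]
  linarith

end

end Pool.Agent.N680.ME
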