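import Pool.Agent.N939.ME.Stm3

/-!
# Project ME (helper939), ME28 (helper680): Fejer argument for positive definite sequences
-/

set_option autoImplicit false
open MeasureTheory ProbabilityTheory Filter Topology Finset

namespace Pool.Agent.N680.ME.OPB

open Pool.Agent.N939.ME

noncomputable section

/-- orthogonality of the cosines at the `M`-th roots of unity -/
lemma sum_cos (M : ℕ) (hM : 0 < M) (a : ℤ) :
    ∑ m ∈ range M, Real.cos ((a : ℝ) * (2 * Real.pi * m / M)) =
      if (M : ℤ) ∣ a then (M : ℝ) else 0 := by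
  have hM0 : (M : ℂ) ≠ 0 := by exact_mod_cast hM.ne'
  set x : ℂ := Complex.exp ((a : ℂ) * (2 * Real.pi / M) * Complex.I) with hx
  have hpow : ∀ m : ℕ, (x ^ m).re = Real.cos ((a : ℝ) * (2 * Real.pi * m / M)) := by
    intro m
    have e : x ^ m = Complex.exp (((a : ℝ) * (2 * Real.pi * m / M) : ℝ) * Complex.I) := by
      rw [hx, ← Complex.exp_nat_mul]
      congr 1
      push_cast
      ring
    rw [e, Complex.exp_ofReal_mul_I_re]
  have hsum : ∑ m ∈ range M, Real.cos ((a : ℝ) * (2 * Real.pi * m / M)) =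
      (∑ m ∈ range M, x ^ m).re := by
    rw [Complex.re_sum]
    exact sum_congr rfl fun m _ => (hpow m).symm
  rw [hsum]
  split_ifs with h
  · obtain ⟨b, rfl⟩ := h
    have hx1 : x = 1 := by
      rw [hx, Complex.exp_eq_one_iff]
      refine ⟨b, ?_⟩
      push_cast
      field_simp
    rw [hx1]
    simp
  · have hx1 : x ≠ 1 := by
      intro h1
      rw [hx, Complex.exp_eq_one_iff] at h1
      obtain ⟨b, hb⟩ := h1
      apply h
      refine ⟨b, ?_⟩
      have hpi : (2 * (Real.pi : ℂ) * Complex.I) ≠ 0 := Complex.two_pi_I_ne_zero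
      have h2 : (a : ℂ) * (2 * Real.pi * Complex.I) = (M * b : ℂ) * (2 * Real.pi * Complex.I) := by
        have h3 : (a : ℂ) * (2 * Real.pi * Complex.I) =
            (M : ℂ) * ((a : ℂ) * (2 * Real.pi / M) * Complex.I) := by
          field_simp
        rw [h3, hb]
        ring
      have h4 := mul_right_cancel₀ hpi h2
      exact_mod_cast h4
    have hxM : x ^ M = 1 := by
      rw [hx, ← Complex.exp_nat_mul, Complex.exp_eq_one_iff]
      refine ⟨a, ?_⟩
      field_simp
    rw [geom_sum_eq hx1, hxM]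
    simp

lemma sum_cos_mul (M : ℕ) (hM : 0 < M) (a b : ℤ) (hab : |a| + |b| < M) :
    ∑ m ∈ range M, Real.cos ((a : ℝ) * (2 * Real.pi * m / M)) *
      Real.cos ((b : ℝ) * (2 * Real.pi * m / M)) =
      (M : ℝ) / 2 * ((if a = b then 1 else 0) + (if a = -b then 1 else 0)) := by
  have h1 : ∀ m : ℕ, Real.cos ((a : ℝ) * (2 * Real.pi * m / M)) *
      Real.cos ((b : ℝ) * (2 * Real.pi * m / M)) =
      1 / 2 * (Real.cos (((a - b : ℤ) : ℝ) * (2 * Real.pi * m / M)) +
        Real.cos (((a + b : ℤ) : ℝ) * (2 * Real.pi * m / M))) := by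
    intro m
    push_cast
    rw [sub_mul, add_mul, Real.cos_sub, Real.cos_add]
    ring
  rw [sum_congr rfl fun m _ => h1 m, ← mul_sum, sum_add_distrib, sum_cos M hM, sum_cos M hM]
  have h2 : ∀ z : ℤ, |z| < M → ((M : ℤ) ∣ z ↔ z = 0) := by
    intro z hz
    constructor
    · intro h
      exact Int.eq_zero_of_abs_lt_dvd h hz
    · rintro rfl
      exact dvd_zero _
  have h3 : |a - b| < M := lt_of_le_of_lt (abs_sub _ _) hab
  have h4 : |a + b| < M := lt_of_le_of_lt (abs_add_le _ _) hab
  simp only [h2 _ h3, h2 _ h4, sub_eq_zero, add_eq_zero_iff_eq_neg]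
  split_ifs <;> ring

/-- number of pairs with a given difference -/
def cnt (N p q : ℕ) : ℝ :=
  ∑ j ∈ range N, ∑ k ∈ range N, if ((p : ℤ) - q = (j : ℤ) - k) then (1 : ℝ) else 0

lemma cnt_le (N p q : ℕ) : cnt N p q ≤ N := by
  unfold cnt
  have h : ∀ j ∈ range N, (∑ k ∈ range N, if ((p : ℤ) - q = (j : ℤ) - k) then (1 : ℝ) else 0) ≤ 1 := by
    intro j _
    rw [← sum_filter, sum_const, nsmul_eq_mul, mul_one]
    have : ((range N).filter fun k : ℕ => (p : ℤ) - q = (j : ℤ) - k).card ≤ 1 := by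
      rw [card_le_one]
      intro a ha b hb
      have h1 := (mem_filter.1 ha).2
      have h2 := (mem_filter.1 hb).2
      omega
    exact_mod_cast this
  refine (sum_le_sum h).trans (le_of_eq ?_)
  simp

lemma le_cnt (N p q n : ℕ) (hp : p < n) (hq : q < n) : (N : ℝ) - 2 * n ≤ cnt N p q := by
  unfold cnt
  have h : ∀ j ∈ range N, (if n ≤ j ∧ j + n < N then (1 : ℝ) else 0) ≤
      ∑ k ∈ range N, if ((p : ℤ) - q = (j : ℤ) - k) then (1 : ℝ) else 0 := by
    intro j hj
    split_ifs with h1
    · have hk : j + q - p ∈ range N := by rw [mem_range]; omega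
      have := single_le_sum (f := fun k : ℕ => if ((p : ℤ) - q = (j : ℤ) - k) then (1 : ℝ) else 0)
        (fun k _ => by split_ifs <;> norm_num) hk
      refine le_trans (le_of_eq ?_) this
      rw [if_pos]
      omega
    · exact sum_nonneg fun k _ => by split_ifs <;> norm_num
  refine le_trans ?_ (sum_le_sum h)
  rw [← sum_filter, sum_const, nsmul_eq_mul, mul_one]
  have h2 : N ≤ ((range N).filter fun j => n ≤ j ∧ j + n < N).card + 2 * n := by
    have h3 : (Finset.Ico n (N - n)).card ≤
        ((range N).filter fun j => n ≤ j ∧ j + n < N).card := by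
      apply card_le_card
      intro j hj
      rw [Finset.mem_Ico] at hj
      rw [mem_filter, mem_range]
      omega
    rw [Nat.card_Ico] at h3
    omega
  have h4 : (N : ℝ) ≤ (((range N).filter fun j => n ≤ j ∧ j + n < N).card : ℝ) + 2 * n := by
    exact_mod_cast h2
  linarith

/-- the form in terms of cosines -/
lemma form_cos {n : ℕ} (x : ℕ → ℕ → ℝ) (θ : ℝ) :
    (∑ p ∈ range n, ∑ q ∈ range n, Real.cos (p * θ) * Real.cos (q * θ) * x p q) +
      (∑ p ∈ range n, ∑ q ∈ range n, Real.sin (p * θ) * Real.sin (q * θ) * x p q) =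
      ∑ p ∈ range n, ∑ q ∈ range n, x p q * Real.cos ((((p : ℤ) - q : ℤ) : ℝ) * θ) := by
  rw [← sum_add_distrib]
  refine sum_congr rfl fun p _ => ?_
  rw [← sum_add_distrib]
  refine sum_congr rfl fun q _ => ?_
  push_cast
  rw [sub_mul, Real.cos_sub]
  ring

lemma key (τ : ℕ → ℝ)
    (hτ : ∀ (n : ℕ) (c : ℕ → ℝ),
      0 ≤ ∑ p ∈ range n, ∑ q ∈ range n, c p * c q * τ (Nat.dist p q))
    (n : ℕ) (C : ℝ) (w : ℕ → ℕ → ℝ)
    (hA : ∀ θ : ℝ, ∑ p ∈ range n, ∑ q ∈ range n, w p q *
      Real.cos ((((p : ℤ) - q : ℤ) : ℝ) * θ) ≤ C) (N : ℕ) :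
    ∑ p ∈ range n, ∑ q ∈ range n, w p q * τ (Nat.dist p q) * cnt N p q ≤ N * (C * τ 0) := by
  set M : ℕ := n + N + 1 with hM
  have hM0 : 0 < M := by omega
  have hMr : (0 : ℝ) < M := by exact_mod_cast hM0
  set t : ℕ → ℝ := fun m => 2 * Real.pi * m / M with ht
  set A : ℝ → ℝ := fun θ => ∑ p ∈ range n, ∑ q ∈ range n, w p q *
      Real.cos ((((p : ℤ) - q : ℤ) : ℝ) * θ) with hAdef
  set F : ℝ → ℝ := fun θ => ∑ j ∈ range N, ∑ k ∈ range N, τ (Nat.dist j k) *
      Real.cos ((((j : ℤ) - k : ℤ) : ℝ) * θ) with hF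
  have hF0 : ∀ θ, 0 ≤ F θ := by
    intro θ
    rw [hF]
    simp only
    rw [← form_cos (fun j k => τ (Nat.dist j k)) θ]
    exact add_nonneg (hτ N fun j => Real.cos (j * θ)) (hτ N fun j => Real.sin (j * θ))
  have h1 : ∑ m ∈ range M, A (t m) * F (t m) ≤ C * ∑ m ∈ range M, F (t m) := by
    rw [mul_sum]
    exact sum_le_sum fun m _ => mul_le_mul_of_nonneg_right (hA _) (hF0 _)
  -- the sum of F
  have h2 : ∑ m ∈ range M, F (t m) = M * (N * τ 0) := by
    rw [hF]
    simp only
    rw [sum_comm]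
    have h3 : ∀ j ∈ range N, ∑ m ∈ range M, ∑ k ∈ range N, τ (Nat.dist j k) *
        Real.cos ((((j : ℤ) - k : ℤ) : ℝ) * t m) = M * τ 0 := by
      intro j hj
      rw [sum_comm, sum_eq_single j]
      · rw [← mul_sum, sum_cos M hM0]
        simp [mul_comm]
      · intro k hk hkj
        rw [← mul_sum, sum_cos M hM0, if_neg, mul_zero]
        intro hdvd
        have h4 : ((j : ℤ) - k) = 0 := by
          refine Int.eq_zero_of_abs_lt_dvd hdvd ?_
          have hj' := mem_range.1 hj
          have hk' := mem_range.1 hk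
          rw [abs_lt]
          constructor <;> omega
        apply hkj
        omega
      · intro h; exact absurd hj h
    rw [sum_congr rfl h3, sum_const, card_range, nsmul_eq_mul]
    ring
  -- the main sum
  have h3 : ∑ m ∈ range M, A (t m) * F (t m) =
      M * ∑ p ∈ range n, ∑ q ∈ range n, w p q * τ (Nat.dist p q) * cnt N p q := by
    have e1 : ∀ m, A (t m) * F (t m) = ∑ p ∈ range n, ∑ q ∈ range n, ∑ j ∈ range N, ∑ k ∈ range N,
        w p q * τ (Nat.dist j k) * (Real.cos ((((p : ℤ) - q : ℤ) : ℝ) * t m) *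
          Real.cos ((((j : ℤ) - k : ℤ) : ℝ) * t m)) := by
      intro m
      rw [hAdef, hF]
      simp only
      rw [sum_mul]
      refine sum_congr rfl fun p _ => ?_
      rw [sum_mul]
      refine sum_congr rfl fun q _ => ?_
      rw [mul_sum]
      refine sum_congr rfl fun j _ => ?_
      rw [mul_sum]
      refine sum_congr rfl fun k _ => ?_
      ring
    rw [sum_congr rfl fun m _ => e1 m, sum_comm, mul_sum]
    refine sum_congr rfl fun p hp => ?_
    rw [sum_comm, mul_sum]
    refine sum_congr rfl fun q hq => ?_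
    rw [sum_comm]
    have e2 : ∀ j ∈ range N, ∑ m ∈ range M, ∑ k ∈ range N,
        w p q * τ (Nat.dist j k) * (Real.cos ((((p : ℤ) - q : ℤ) : ℝ) * t m) *
          Real.cos ((((j : ℤ) - k : ℤ) : ℝ) * t m)) =
        ∑ k ∈ range N, (M / 2 * (w p q * τ (Nat.dist p q)) *
          (if ((p : ℤ) - q = (j : ℤ) - k) then (1 : ℝ) else 0) +
          M / 2 * (w p q * τ (Nat.dist p q)) *
          (if ((p : ℤ) - q = (k : ℤ) - j) then (1 : ℝ) else 0)) := by
      intro j hj
      rw [sum_comm]
      refine sum_congr rfl fun k hk => ?_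
      rw [← mul_sum, sum_cos_mul M hM0 ((p : ℤ) - q) ((j : ℤ) - k)]
      · have h5 : (-((j : ℤ) - k)) = (k : ℤ) - j := by ring
        rw [h5]
        have h6 : ((p : ℤ) - q = (j : ℤ) - k) → Nat.dist j k = Nat.dist p q := by
          intro h; unfold Nat.dist; omega
        have h7 : ((p : ℤ) - q = (k : ℤ) - j) → Nat.dist j k = Nat.dist p q := by
          intro h; unfold Nat.dist; omega
        by_cases c1 : ((p : ℤ) - q = (j : ℤ) - k)
        · rw [h6 c1]
          ring
        · by_cases c2 : ((p : ℤ) - q = (k : ℤ) - j)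
          · rw [h7 c2]
            ring
          · rw [if_neg c1, if_neg c2]
            ring
      · have a1 := mem_range.1 hp
        have a2 := mem_range.1 hq
        have a3 := mem_range.1 hj
        have a4 := mem_range.1 hk
        have b1 : |(p : ℤ) - q| ≤ n := by rw [abs_le]; constructor <;> omega
        have b2 : |(j : ℤ) - k| ≤ N := by rw [abs_le]; constructor <;> omega
        rw [hM]
        push_cast
        linarith
    rw [sum_congr rfl e2]
    simp only [sum_add_distrib, ← mul_sum]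
    have e3 : ∑ j ∈ range N, ∑ k ∈ range N,
        (if ((p : ℤ) - q = (k : ℤ) - j) then (1 : ℝ) else 0) = cnt N p q := by
      rw [sum_comm]
      rfl
    have e4 : ∑ j ∈ range N, ∑ k ∈ range N,
        (if ((p : ℤ) - q = (j : ℤ) - k) then (1 : ℝ) else 0) = cnt N p q := rfl
    rw [e3, e4]
    ring
  rw [h2, h3] at h1
  have h4 : (M : ℝ) * ∑ p ∈ range n, ∑ q ∈ range n, w p q * τ (Nat.dist p q) * cnt N p q ≤
      M * (N * (C * τ 0)) := by
    refine h1.trans (le_of_eq ?_)
    ring
  exact le_of_mul_le_mul_left h4 hMr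

theorem opb : S_OPb := by
  intro τ hτ n C R c hR hc hC
  set w : ℕ → ℕ → ℝ := fun p q => ∫ r in (0:ℝ)..R, c p r * c q r with hw
  have hint : ∀ p q (a : ℝ), IntervalIntegrable (fun r => c p r * c q r * a) volume 0 R :=
    fun p q a => (((hc p).mul (hc q)).mul continuous_const).intervalIntegrable _ _
  have hlin : ∀ x : ℕ → ℕ → ℝ, ∫ r in (0:ℝ)..R, ∑ p ∈ range n, ∑ q ∈ range n,
      c p r * c q r * x p q = ∑ p ∈ range n, ∑ q ∈ range n, w p q * x p q := by
    intro x
    rw [intervalIntegral.integral_finsetSum]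
    · refine sum_congr rfl fun p _ => ?_
      rw [intervalIntegral.integral_finsetSum]
      · refine sum_congr rfl fun q _ => ?_
        rw [intervalIntegral.integral_mul_const]
      · intro q _
        exact hint p q _
    · intro p _
      exact (continuous_finsetSum _ fun q _ =>
        ((hc p).mul (hc q)).mul continuous_const).intervalIntegrable _ _
  have hA : ∀ θ : ℝ, ∑ p ∈ range n, ∑ q ∈ range n, w p q *
      Real.cos ((((p : ℤ) - q : ℤ) : ℝ) * θ) ≤ C := by
    intro θ
    rw [← hlin fun p q => Real.cos ((((p : ℤ) - q : ℤ) : ℝ) * θ)]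
    refine le_trans (le_of_eq ?_) (hC θ)
    congr 1
    funext r
    rw [← form_cos (fun p q => c p r * c q r) θ, sq, sq, sum_mul_sum, sum_mul_sum]
    congr 1
    · refine sum_congr rfl fun p _ => sum_congr rfl fun q _ => ?_
      ring
    · refine sum_congr rfl fun p _ => sum_congr rfl fun q _ => ?_
      ring
  rw [hlin fun p q => τ (Nat.dist p q)]
  -- the limit
  have hlim : Tendsto (fun N : ℕ => ∑ p ∈ range n, ∑ q ∈ range n, w p q * τ (Nat.dist p q) *
      (cnt N p q / N)) atTop (𝓝 (∑ p ∈ range n, ∑ q ∈ range n, w p q * τ (Nat.dist p q) * 1)) := by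
    refine tendsto_finsetSum _ fun p hp => tendsto_finsetSum _ fun q hq => ?_
    refine Tendsto.const_mul _ ?_
    have l1 : Tendsto (fun N : ℕ => 1 - 2 * (n : ℝ) / N) atTop (𝓝 1) := by
      have := (tendsto_const_div_atTop_nhds_zero_nat (2 * (n : ℝ))).const_sub 1
      simpa using this
    refine tendsto_of_tendsto_of_tendsto_of_le_of_le' l1 tendsto_const_nhds ?_ ?_
    · filter_upwards [eventually_gt_atTop 0] with N hN
      have hN' : (0 : ℝ) < N := by exact_mod_cast hN
      rw [le_div_iff₀ hN', sub_mul, one_mul, div_mul_cancel₀ _ hN'.ne']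
      exact le_cnt N p q n (mem_range.1 hp) (mem_range.1 hq)
    · filter_upwards [eventually_gt_atTop 0] with N hN
      have hN' : (0 : ℝ) < N := by exact_mod_cast hN
      rw [div_le_one hN']
      exact cnt_le N p q
  simp only [mul_one] at hlim
  refine le_of_tendsto hlim ?_
  filter_upwards [eventually_gt_atTop 0] with N hN
  have hN' : (0 : ℝ) < N := by exact_mod_cast hN
  have h := key τ hτ n C w hA N
  have e : ∑ p ∈ range n, ∑ q ∈ range n, w p q * τ (Nat.dist p q) * (cnt N p q / N) =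
      (∑ p ∈ range n, ∑ q ∈ range n, w p q * τ (Nat.dist p q) * cnt N p q) / N := by
    rw [sum_div]
    refine sum_congr rfl fun p _ => ?_
    rw [sum_div]
    refine sum_congr rfl fun q _ => ?_
    ring
  rw [e, div_le_iff₀ hN']
  linarith

end

end Pool.Agent.N680.ME.OPB
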